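import Pool.Agent.R217.CW.Main

set_option autoImplicit false

namespace Pool.Agent.Results.MP_e9346b_an.ThresholdAttained

open Pool.Agent.R217.BN (cexp sobS)
open Pool.Agent.R217.CW (Pr IsGS mu0 lev)

/-- Full answer to Q1 (the statement holds for all admissible `(N, p, μ, ν)`): with
`λ_{μ,ν} = inf {λ < √(μν) : m_τ < S^{N/2}/N for all τ ∈ [λ, √(μν))}` the system with coupling
`λ_{μ,ν}` has a ground state solution. -/
theorem result (N : ℕ) (hN : 3 ≤ N) (p μ ν : ℝ) (hp : 1 < p) (hp' : p < cexp N - 1)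
    (hμ : mu0 N p < μ) (hν : 0 < ν) :
    ∃ Λ : ℝ, Λ = sInf {lam | 0 < lam ∧ lam < Real.sqrt (μ * ν) ∧
        ∀ τ : ℝ, lam ≤ τ → τ < Real.sqrt (μ * ν) →
          lev N p μ ν τ < 1 / N * sobS N ^ ((N : ℝ) / 2)} ∧
      Real.sqrt ((μ - mu0 N p) * ν) ≤ Λ ∧ Λ < Real.sqrt (μ * ν) ∧
      ∃ z : Pr N, IsGS p μ ν Λ z :=
  Pool.Agent.R217.CW.main2 hN hp hp' hμ hν

end Pool.Agent.Results.MP_e9346b_an.ThresholdAttained
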